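import Pool.Agent.helper60.DA.SpecV

/-!
# Row dv:M1 (MP_fb2c2a_nt)
-/

namespace Pool.Agent.helper60.DA

open Polynomial Finset Pool.Agent.helper60.DK

/-- recurrence of the binomial coefficient `C(3k, k)` -/
theorem M1_choose (k : ℕ) : (k + 1) * ((2 * k + 1) * (2 * k + 2)) * (3 * (k + 1)).choose (k + 1) =
    (3 * k + 1) * (3 * k + 2) * (3 * k + 3) * (3 * k).choose k := by
  have h1 := Nat.choose_mul_factorial_mul_factorial (show k ≤ 3 * k by omega)
  have h2 := Nat.choose_mul_factorial_mul_factorial (show k + 1 ≤ 3 * (k + 1) by omega)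
  have e1 : 3 * k - k = 2 * k := by omega
  have e2 : 3 * (k + 1) - (k + 1) = 2 * k + 1 + 1 := by omega
  have e3 : 3 * (k + 1) = 3 * k + 1 + 1 + 1 := by omega
  rw [e1] at h1
  rw [e2] at h2
  rw [show Nat.factorial (3 * (k + 1)) = (3 * k + 1 + 1 + 1) * ((3 * k + 1 + 1) * ((3 * k + 1) *
    Nat.factorial (3 * k))) by rw [e3, Nat.factorial_succ, Nat.factorial_succ, Nat.factorial_succ],
    Nat.factorial_succ (2 * k + 1), Nat.factorial_succ (2 * k), Nat.factorial_succ k, ← h1] at h2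
  have h3 : 0 < Nat.factorial k * Nat.factorial (2 * k) := Nat.mul_pos (Nat.factorial_pos _) (Nat.factorial_pos _)
  apply Nat.eq_of_mul_eq_mul_right h3
  calc (k + 1) * ((2 * k + 1) * (2 * k + 2)) * (3 * (k + 1)).choose (k + 1) *
        (Nat.factorial k * Nat.factorial (2 * k))
      = (3 * (k + 1)).choose (k + 1) * ((k + 1) * Nat.factorial k) *
          ((2 * k + 1 + 1) * ((2 * k + 1) * Nat.factorial (2 * k))) := by ring
    _ = _ := by rw [h2]; ring

/-- recurrence of `a_k` -/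
theorem M1_ak (k : ℕ) : ak (k + 1) * ((k : ℤ) + 1) ^ 3 =
    6 * (2 * (k : ℤ) + 1) * (3 * (k : ℤ) + 1) * (3 * (k : ℤ) + 2) * ak k := by
  have h1 : ((k : ℤ) + 1) * ((k + 1).centralBinom : ℤ) = 2 * (2 * (k : ℤ) + 1) * (k.centralBinom : ℤ) := by
    exact_mod_cast Nat.succ_mul_centralBinom_succ k
  have h2 : ((k : ℤ) + 1) * ((2 * k + 1) * (2 * k + 2)) * ((3 * (k + 1)).choose (k + 1) : ℤ) =
      (3 * k + 1) * (3 * k + 2) * (3 * k + 3) * ((3 * k).choose k : ℤ) := by
    exact_mod_cast M1_choose k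
  have h3 : (2 * (k : ℤ) + 1) ≠ 0 := by positivity
  have h4 : ((k : ℤ) + 1) ≠ 0 := by positivity
  unfold ak
  apply mul_left_cancel₀ (mul_ne_zero h3 h4)
  calc (2 * (k : ℤ) + 1) * ((k : ℤ) + 1) * (((k + 1).centralBinom : ℤ) ^ 2 *
        ((3 * (k + 1)).choose (k + 1) : ℤ) * ((k : ℤ) + 1) ^ 3)
      = (((k : ℤ) + 1) * ((k + 1).centralBinom : ℤ)) ^ 2 * (2 * k + 1) * (k + 1) * (k + 1) *
          ((3 * (k + 1)).choose (k + 1) : ℤ) := by ring
    _ = (2 * (2 * (k : ℤ) + 1) * (k.centralBinom : ℤ)) ^ 2 * (2 * k + 1) * (k + 1) * (k + 1) *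
          ((3 * (k + 1)).choose (k + 1) : ℤ) := by rw [h1]
    _ = 2 * (2 * (k : ℤ) + 1) ^ 2 * (k.centralBinom : ℤ) ^ 2 *
          (((k : ℤ) + 1) * ((2 * k + 1) * (2 * k + 2)) * ((3 * (k + 1)).choose (k + 1) : ℤ)) := by ring
    _ = 2 * (2 * (k : ℤ) + 1) ^ 2 * (k.centralBinom : ℤ) ^ 2 *
          ((3 * k + 1) * (3 * k + 2) * (3 * k + 3) * ((3 * k).choose k : ℤ)) := by rw [h2]
    _ = _ := by ring

theorem M1_cast {p : ℕ} [hp : Fact p.Prime] (h5 : 5 ≤ p) : ∀ k, k ≤ hh p →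
    ((ak k : ℤ) : ZMod p) = ((cc (nn p) k : ℤ) : ZMod p) * (-27) ^ k := by
  intro k
  induction k with
  | zero =>
    intro _
    simp [ak, cc_zero]
  | succ k ih =>
    intro hk
    have ih' := ih (by omega)
    have h2h := two_hh (p := p) h5
    have hk0 : ((k : ZMod p) + 1) ≠ 0 := by
      have := cast_ne_zero_of_lt (p := p) (m := k + 1) (by omega) (by omega)
      push_cast at this
      exact this
    have h1 := congrArg (fun z : ℤ => (z : ZMod p)) (M1_ak k)
    have h2 := congrArg (fun z : ℤ => (z : ZMod p)) (cc_succ (nn p) k)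
    push_cast at h1 h2
    have h3 := nine_nK (p := p) h5
    apply mul_right_cancel₀ (pow_ne_zero 3 hk0)
    rw [h1, ih', pow_succ]
    have h4 : ((cc (nn p) (k + 1) : ℤ) : ZMod p) * ((-27) ^ k * -27) * ((k : ZMod p) + 1) ^ 3 =
        (((cc (nn p) (k + 1) : ℤ) : ZMod p) * ((k : ZMod p) + 1) ^ 3) * ((-27) ^ k * -27) := by ring
    rw [h4, h2]
    linear_combination (6 * ((cc (nn p) k : ℤ) : ZMod p) * (-27) ^ k * (2 * (k : ZMod p) + 1)) * h3

theorem M1 : M1_stmt := by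
  intro p hp h5
  have h4 : (4 : ZMod p) ≠ 0 := four_ne h5
  have h16 : (16 : ZMod p) ≠ 0 := by
    have : (16 : ZMod p) = 4 * 4 := by norm_num
    rw [this]
    exact mul_ne_zero h4 h4
  have h2h := two_hh (p := p) h5
  have h16h : (16 : ZMod p) ^ hh p = 1 := by
    have h1 : (16 : ZMod p) = 4 ^ 2 := by norm_num
    rw [h1, ← pow_mul, show 2 * hh p = p - 1 by omega]
    exact ZMod.pow_card_sub_one_eq_one h4
  have hcoef : ∀ k, k ≤ hh p → ((ak k : ℤ) : ZMod p) * 16 ^ (hh p - k) = bb p k := by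
    intro k hk
    rw [M1_cast h5 k hk, bb, div_pow]
    have h1 : (16 : ZMod p) ^ (hh p - k) * 16 ^ k = 1 := by
      rw [← pow_add, Nat.sub_add_cancel hk, h16h]
    have h2 : (16 : ZMod p) ^ (hh p - k) = ((16 : ZMod p) ^ k)⁻¹ := eq_inv_of_mul_eq_one_left h1
    rw [h2, div_eq_mul_inv]
    ring
  have hn : nn p ≤ hh p := by
    unfold nn hh
    omega
  have h1 : red p (S1 p) = ∑ k ∈ range (hh p + 1), C (bb p k) * ff p k := by
    unfold S1 Hh
    rw [red, Polynomial.map_sum]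
    apply Finset.sum_congr rfl
    intro k hk
    rw [mem_range] at hk
    rw [Polynomial.map_mul, Polynomial.map_C, ← hcoef k (by omega), ff, Polynomial.map_mul,
      Polynomial.map_pow, Polynomial.map_pow, Polynomial.map_add, Polynomial.map_X, Polynomial.map_one]
    congr 2
    simp
  rw [h1, Wp]
  symm
  apply Finset.sum_subset
  · intro k hk
    rw [mem_range] at hk ⊢
    omega
  · intro k _ hk
    rw [mem_range] at hk
    have h2 : bb p k = 0 := by
      rw [bb, cc_of_lt (by omega)]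
      simp
    rw [h2, C_0, zero_mul]

end Pool.Agent.helper60.DA
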